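import Mathlib

/-!
# No Tukey-minimal poset for `I`-cohesiveness

For all infinite regular cardinals `κ < lam` there is a proper, `κ`-complete ideal `I` on (the
set of ordinals below) `lam`, containing all bounded subsets of `lam`, such that no poset `P` has
the property that the directed sets `Q` with `P ≤_T Q` are exactly the `I`-cohesive ones.
-/

open Cardinal Set

universe u v w

namespace Pool.Agent.Results.MP_95a664_lc.NoMinimalPoset

/-- The Tukey order: `P ≤_T Q` iff there is a map `f : Q → P` sending every cofinal subset of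
`Q` onto a cofinal subset of `P`. -/
def TukeyLE (P : Type u) (Q : Type v) [PartialOrder P] [PartialOrder Q] : Prop :=
  ∃ f : Q → P, ∀ B : Set Q, IsCofinal B → IsCofinal (f '' B)

/-- `Space(I) = ⋃ I`. -/
def Space {Z : Type w} (I : Order.Ideal (Set Z)) : Set Z := ⋃₀ {A | A ∈ I}

/-- `Q` is `I`-cohesive: there is a family `q` of elements of `Q`, indexed by `Space(I)`, such
that for every `S ⊆ Space(I)` which is not in `I` the set `{q i : i ∈ S}` is unbounded in `Q`. -/
def IsCohesive {Z : Type w} (I : Order.Ideal (Set Z)) (Q : Type v) [PartialOrder Q] : Prop :=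
  ∃ q : Space I → Q, ∀ S : Set (Space I), ((↑) '' S : Set Z) ∉ I → ¬ BddAbove (q '' S)

/-- If `P` is Tukey below two linear orders `K`, `L` with `|K| < cof L`, `L` nonempty, then `P`
has a greatest element. -/
lemma exists_isTop {P : Type u} [PartialOrder P] {K L : Type v} [LinearOrder K] [LinearOrder L]
    (h : Cardinal.mk K < Order.cof L) (hK : TukeyLE P K) (hL : TukeyLE P L) : ∃ m : P, IsTop m := by
  obtain ⟨f, hf⟩ := hK
  obtain ⟨g, hg⟩ := hL
  have hf' : IsCofinal (f '' univ) := hf univ IsCofinal.univ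
  have hcov : IsCofinal (⋃ b : K, {a : L | g a ≤ f b}) := by
    intro a
    obtain ⟨_, ⟨b, -, rfl⟩, hb⟩ := hf' (g a)
    exact ⟨a, mem_iUnion.2 ⟨b, hb⟩, le_rfl⟩
  obtain ⟨b, hb⟩ := isCofinal_of_isCofinal_iUnion hcov h
  refine ⟨f b, fun p => ?_⟩
  obtain ⟨_, ⟨a, ha, rfl⟩, hpa⟩ := hg _ hb p
  exact hpa.trans ha

/-- A poset with a greatest element is Tukey below the one-point poset. -/
lemma tukeyLE_punit {P : Type u} [PartialOrder P] {m : P} (hm : IsTop m) :
    TukeyLE P PUnit.{v+1} := by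
  refine ⟨fun _ => m, fun B hB p => ?_⟩
  obtain ⟨b, hb, -⟩ := hB PUnit.unit
  exact ⟨m, ⟨b, hb, rfl⟩, hm p⟩

/-- The general construction: `K`, `L` linear orders without maximum, and
`e : Z → K × L` surjective. -/
def prodIdeal {Z : Type w} {K L : Type v} [LinearOrder K] [LinearOrder L] [Nonempty K]
    [Nonempty L] (e : Z → K × L) : Order.Ideal (Set Z) where
  carrier := {A | ∃ (a : K) (b : L), ∀ z ∈ A, (e z).1 < a ∨ (e z).2 < b}
  lower' := by
    rintro A B hBA ⟨a, b, h⟩
    exact ⟨a, b, fun z hz => h z (hBA hz)⟩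
  nonempty' := ⟨∅, Classical.arbitrary K, Classical.arbitrary L, fun z hz => hz.elim⟩
  directed' := by
    rintro A ⟨a, b, h⟩ B ⟨a', b', h'⟩
    refine ⟨A ∪ B, ⟨max a a', max b b', ?_⟩, subset_union_left, subset_union_right⟩
    rintro z (hz | hz)
    · exact (h z hz).imp (fun h => lt_max_of_lt_left h) (fun h => lt_max_of_lt_left h)
    · exact (h' z hz).imp (fun h => lt_max_of_lt_right h) (fun h => lt_max_of_lt_right h)

lemma mem_prodIdeal {Z : Type w} {K L : Type v} [LinearOrder K] [LinearOrder L] [Nonempty K]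
    [Nonempty L] {e : Z → K × L} {A : Set Z} :
    A ∈ prodIdeal e ↔ ∃ (a : K) (b : L), ∀ z ∈ A, (e z).1 < a ∨ (e z).2 < b := Iff.rfl

lemma univ_notMem_prodIdeal {Z : Type w} {K L : Type v} [LinearOrder K] [LinearOrder L]
    [Nonempty K] [Nonempty L] {e : Z → K × L} (he : Function.Surjective e) :
    (univ : Set Z) ∉ prodIdeal e := by
  rintro ⟨a, b, h⟩
  obtain ⟨z, hz⟩ := he (a, b)
  have := h z (mem_univ z)
  simp [hz] at this

lemma cohesive_left {Z : Type w} {K L : Type v} [LinearOrder K] [LinearOrder L]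
    [Nonempty K] [Nonempty L] [NoMaxOrder K] (e : Z → K × L) : IsCohesive (prodIdeal e) K := by
  refine ⟨fun z => (e z).1, fun S hS hb => hS ?_⟩
  obtain ⟨a, ha⟩ := hb
  obtain ⟨a', ha'⟩ := exists_gt a
  refine ⟨a', Classical.arbitrary L, ?_⟩
  rintro _ ⟨z, hz, rfl⟩
  exact Or.inl ((ha (mem_image_of_mem _ hz)).trans_lt ha')

lemma cohesive_right {Z : Type w} {K L : Type v} [LinearOrder K] [LinearOrder L]
    [Nonempty K] [Nonempty L] [NoMaxOrder L] (e : Z → K × L) : IsCohesive (prodIdeal e) L := by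
  refine ⟨fun z => (e z).2, fun S hS hb => hS ?_⟩
  obtain ⟨b, hb⟩ := hb
  obtain ⟨b', hb'⟩ := exists_gt b
  refine ⟨Classical.arbitrary K, b', ?_⟩
  rintro _ ⟨z, hz, rfl⟩
  exact Or.inr ((hb (mem_image_of_mem _ hz)).trans_lt hb')

/-- A subset of size less than the cofinality is bounded (strictly, if there is no maximum). -/
lemma exists_gt_of_lt_cof {L : Type v} [LinearOrder L] {A : Set L}
    (h : Cardinal.mk A < Order.cof L) : ∃ b, ∀ a ∈ A, a < b := by
  by_contra hcon
  push Not at hcon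
  have : IsCofinal A := fun b => by
    obtain ⟨a, ha, hab⟩ := hcon b
    exact ⟨a, ha, hab⟩
  exact absurd (Order.cof_le this) (not_le.2 h)

lemma noMaxOrder_of_cof {L : Type v} [LinearOrder L] (h : ℵ₀ ≤ Order.cof L) : NoMaxOrder L := by
  refine ⟨fun a => ?_⟩
  by_contra hcon
  push Not at hcon
  have : IsCofinal ({a} : Set L) := fun b => ⟨a, rfl, hcon b⟩
  have h1 := Order.cof_le this
  rw [Cardinal.mk_singleton] at h1
  exact absurd (h.trans h1) (not_le.2 Cardinal.one_lt_aleph0)

/-- **Answer to Q1 (negative).** For all infinite regular cardinals `κ < lam` there is a proper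
`κ`-complete ideal `I` on `lam` that contains all bounded subsets of `lam`, such that for no poset
`P` (in any universe) do we have `P ≤_T Q ↔ Q is I-cohesive` for every nonempty directed set `Q`.
In particular (take `κ = ℵ₀` and `lam = ℵ₁`) there is an ideal `I` without a poset `P_I`. -/
theorem result {κ lam : Cardinal.{v}} (hκ : κ.IsRegular) (hlam : lam.IsRegular) (h : κ < lam) :
    ∃ I : Order.Ideal (Set lam.ord.ToType),
      (∀ A : Set lam.ord.ToType, BddAbove A → A ∈ I) ∧
      (∀ F : Set (Set lam.ord.ToType), Cardinal.mk F < κ → (∀ A ∈ F, A ∈ I) → ⋃₀ F ∈ I) ∧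
      Set.univ ∉ I ∧
      ∀ (P : Type u) [PartialOrder P],
        ¬ ∀ (Q : Type v) [PartialOrder Q] [Nonempty Q] [IsDirectedOrder Q],
            (TukeyLE P Q ↔ IsCohesive I Q) := by
  have hcK : Order.cof κ.ord.ToType = κ := by rw [Ordinal.cof_toType, hκ.cof_ord]
  have hcL : Order.cof lam.ord.ToType = lam := by rw [Ordinal.cof_toType, hlam.cof_ord]
  have hmK : Cardinal.mk κ.ord.ToType = κ := by rw [Cardinal.mk_toType, Cardinal.card_ord]
  have hmL : Cardinal.mk lam.ord.ToType = lam := by rw [Cardinal.mk_toType, Cardinal.card_ord]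
  have : Nonempty κ.ord.ToType := Cardinal.mk_ne_zero_iff.1 (by rw [hmK]; exact hκ.ne_zero)
  have : Nonempty lam.ord.ToType := Cardinal.mk_ne_zero_iff.1 (by rw [hmL]; exact hlam.ne_zero)
  have : NoMaxOrder κ.ord.ToType := noMaxOrder_of_cof (by rw [hcK]; exact hκ.aleph0_le)
  have : NoMaxOrder lam.ord.ToType := noMaxOrder_of_cof (by rw [hcL]; exact hlam.aleph0_le)
  have hprod : Cardinal.mk lam.ord.ToType = Cardinal.mk (κ.ord.ToType × lam.ord.ToType) := by
    rw [Cardinal.mk_prod, hmK, hmL, Cardinal.lift_id, Cardinal.lift_id,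
      Cardinal.mul_eq_right hlam.aleph0_le h.le hκ.ne_zero]
  obtain ⟨e⟩ := Cardinal.eq.1 hprod
  have hbdd : ∀ A : Set lam.ord.ToType, BddAbove A → A ∈ prodIdeal e := by
    intro A hA
    have hA' : Cardinal.mk A < lam := by
      obtain ⟨m, hm⟩ := hA
      obtain ⟨m', hm'⟩ := exists_gt m
      have h1 : A ⊆ Iio m' := fun x hx => (hm hx).trans_lt hm'
      exact (Cardinal.mk_le_mk_of_subset h1).trans_lt (Cardinal.mk_Iio_toType_ord_lt m')
    obtain ⟨b, hb⟩ := exists_gt_of_lt_cof (A := (fun z => (e z).2) '' A) (by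
      rw [hcL]; exact Cardinal.mk_image_le.trans_lt hA')
    exact ⟨Classical.arbitrary _, b, fun z hz => Or.inr (hb _ (mem_image_of_mem _ hz))⟩
  have huniv := univ_notMem_prodIdeal e.surjective
  refine ⟨prodIdeal e, hbdd, ?_, huniv, ?_⟩
  · intro F hF hFI
    choose! a b hab using hFI
    obtain ⟨a', ha'⟩ := exists_gt_of_lt_cof (A := a '' F) (by
      rw [hcK]; exact Cardinal.mk_image_le.trans_lt hF)
    obtain ⟨b', hb'⟩ := exists_gt_of_lt_cof (A := b '' F) (by
      rw [hcL]; exact Cardinal.mk_image_le.trans_lt (hF.trans h))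
    refine ⟨a', b', ?_⟩
    rintro z ⟨A, hA, hz⟩
    exact (hab A hA z hz).imp (fun h => h.trans (ha' _ (mem_image_of_mem _ hA)))
      (fun h => h.trans (hb' _ (mem_image_of_mem _ hA)))
  · intro P _ hP
    obtain ⟨m, hm⟩ := exists_isTop (P := P) (K := κ.ord.ToType) (L := lam.ord.ToType)
      (by rw [hmK, hcL]; exact h)
      ((hP _).2 (cohesive_left e)) ((hP _).2 (cohesive_right e))
    obtain ⟨q, hq⟩ := (hP PUnit).1 (tukeyLE_punit hm)
    have hspace : Space (prodIdeal e) = Set.univ := by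
      refine eq_univ_of_forall fun z => ?_
      exact ⟨{z}, hbdd _ bddAbove_singleton, rfl⟩
    refine hq Set.univ ?_ ⟨PUnit.unit, fun _ _ => le_rfl⟩
    rw [image_univ, Subtype.range_coe, hspace]
    exact huniv

end Pool.Agent.Results.MP_95a664_lc.NoMinimalPoset
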